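import Mathlib

/-!
# Block O2: a generic element of the orthogonal Lie algebra and the root vectors
-/

set_option autoImplicit false

namespace Pool.Agent.RO

open Matrix Polynomial

section congr

variable {k : Type*} [Field k] [IsAlgClosed k]

/-- a nondegenerate symmetric matrix over an algebraically closed field is congruent to `1` -/
theorem o2_cong (h2 : (2 : k) ≠ 0) {n : Type*} [Fintype n] [DecidableEq n] {N : ℕ}
    (hN : Fintype.card n = N) (B : Matrix n n k) (hB : Bᵀ = B) (hdet : IsUnit B.det) :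
    ∃ (P : Matrix n (Fin N) k) (P' : Matrix (Fin N) n k), P * P' = 1 ∧ P' * P = 1 ∧
      Pᵀ * B * P = 1 := by
  have : Invertible (2 : k) := invertibleOfNonzero h2
  set β : LinearMap.BilinForm k (n → k) := Matrix.toBilin' B with hβ
  have hsymm : LinearMap.IsSymm β := by
    refine ⟨fun x y => ?_⟩
    rw [RingHom.id_apply, hβ, Matrix.toBilin'_apply', Matrix.toBilin'_apply', dotProduct_comm,
      ← Matrix.vecMul_transpose, hB, ← Matrix.dotProduct_mulVec, dotProduct_comm]
  obtain ⟨v, hv⟩ := LinearMap.BilinForm.exists_orthogonal_basis hsymm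
  have hr : Module.finrank k (n → k) = N := by
    rw [Module.finrank_fintype_fun_eq_card, hN]
  set w : Module.Basis (Fin N) k (n → k) := v.reindex (finCongr hr) with hw
  set e : Module.Basis n k (n → k) := Pi.basisFun k n with he
  set P0 : Matrix n (Fin N) k := e.toMatrix w with hP0
  set P0' : Matrix (Fin N) n k := w.toMatrix e with hP0'
  have h1 : P0 * P0' = 1 := Module.Basis.toMatrix_mul_toMatrix_flip _ _
  have h1' : P0' * P0 = 1 := Module.Basis.toMatrix_mul_toMatrix_flip _ _
  have hcol : ∀ x i, P0 i x = w x i := fun x i => by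
    rw [hP0, Module.Basis.toMatrix_apply, he, Pi.basisFun_repr]
  have hent : ∀ x y, (P0ᵀ * B * P0) x y = β (w x) (w y) := by
    intro x y
    rw [hβ, Matrix.toBilin'_apply']
    rw [Matrix.mul_assoc]
    simp only [Matrix.mul_apply, Matrix.transpose_apply, hcol, dotProduct, Matrix.mulVec]
  have hD : P0ᵀ * B * P0 = Matrix.diagonal (fun x => β (w x) (w x)) := by
    ext x y
    rw [hent]
    by_cases hxy : x = y
    · subst hxy
      rw [Matrix.diagonal_apply_eq]
    · rw [Matrix.diagonal_apply_ne _ hxy, hw, Module.Basis.reindex_apply,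
        Module.Basis.reindex_apply]
      exact hv (fun h => hxy ((finCongr hr).symm.injective h))
  set d : Fin N → k := fun x => β (w x) (w x) with hd
  have hBB : B⁻¹ * B = 1 := Matrix.nonsing_inv_mul B hdet
  have hinv : (P0' * B⁻¹ * P0'ᵀ) * Matrix.diagonal d = 1 := by
    rw [← hD]
    calc P0' * B⁻¹ * P0'ᵀ * (P0ᵀ * B * P0) = P0' * B⁻¹ * (P0 * P0')ᵀ * B * P0 := by
          rw [Matrix.transpose_mul]
          simp only [Matrix.mul_assoc]
      _ = P0' * (B⁻¹ * B) * P0 := by
          rw [h1, Matrix.transpose_one, Matrix.mul_one]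
          simp only [Matrix.mul_assoc]
      _ = 1 := by rw [hBB, Matrix.mul_one, h1']
  have hd0 : ∀ x, d x ≠ 0 := by
    intro x hx
    have h3 := congrFun (congrFun hinv x) x
    rw [Matrix.mul_diagonal, hx, mul_zero, Matrix.one_apply_eq] at h3
    exact one_ne_zero h3.symm
  choose c hc using fun x => IsAlgClosed.exists_eq_mul_self (d x)
  have hc0 : ∀ x, c x ≠ 0 := by
    intro x hx
    apply hd0 x
    rw [hc x, hx, mul_zero]
  have hcc : Matrix.diagonal (fun x => (c x)⁻¹) * Matrix.diagonal c = (1 : Matrix (Fin N) (Fin N) k) := by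
    rw [Matrix.diagonal_mul_diagonal, ← Matrix.diagonal_one]
    congr 1
    funext x
    exact inv_mul_cancel₀ (hc0 x)
  have hcc' : Matrix.diagonal c * Matrix.diagonal (fun x => (c x)⁻¹) = (1 : Matrix (Fin N) (Fin N) k) := by
    rw [Matrix.diagonal_mul_diagonal, ← Matrix.diagonal_one]
    congr 1
    funext x
    exact mul_inv_cancel₀ (hc0 x)
  refine ⟨P0 * Matrix.diagonal (fun x => (c x)⁻¹), Matrix.diagonal c * P0', ?_, ?_, ?_⟩
  · calc P0 * Matrix.diagonal (fun x => (c x)⁻¹) * (Matrix.diagonal c * P0') =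
        P0 * (Matrix.diagonal (fun x => (c x)⁻¹) * Matrix.diagonal c) * P0' := by
          simp only [Matrix.mul_assoc]
      _ = 1 := by rw [hcc, Matrix.mul_one, h1]
  · calc Matrix.diagonal c * P0' * (P0 * Matrix.diagonal (fun x => (c x)⁻¹)) =
        Matrix.diagonal c * (P0' * P0) * Matrix.diagonal (fun x => (c x)⁻¹) := by
          simp only [Matrix.mul_assoc]
      _ = 1 := by rw [h1', Matrix.mul_one, hcc']
  · calc (P0 * Matrix.diagonal (fun x => (c x)⁻¹))ᵀ * B * (P0 * Matrix.diagonal (fun x => (c x)⁻¹)) =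
        Matrix.diagonal (fun x => (c x)⁻¹) * (P0ᵀ * B * P0) * Matrix.diagonal (fun x => (c x)⁻¹) := by
          rw [Matrix.transpose_mul, Matrix.diagonal_transpose]
          simp only [Matrix.mul_assoc]
      _ = 1 := by
          rw [hD, Matrix.diagonal_mul_diagonal, Matrix.diagonal_mul_diagonal,
            ← Matrix.diagonal_one]
          congr 1
          funext x
          have := hc0 x
          rw [hc x]
          field_simp

end congr

section generic

/-- the weights of the standard representation -/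
def o2E {N : ℕ} (i a : Fin N) : ℤ := (if a = i then 1 else 0) - (if a = Fin.rev i then 1 else 0)

theorem o2E_rev {N : ℕ} (i a : Fin N) : o2E (Fin.rev i) a = - o2E i a := by
  unfold o2E
  rw [Fin.rev_rev]
  ring

theorem o2E_bd {N : ℕ} (i a : Fin N) : -1 ≤ o2E i a ∧ o2E i a ≤ 1 := by
  unfold o2E
  split_ifs <;> norm_num

theorem o2E_one {N : ℕ} {i a : Fin N} (h : o2E i a = 1) : a = i := by
  unfold o2E at h
  by_contra hc
  rw [if_neg hc] at h
  split_ifs at h <;> norm_num at h

theorem o2E_neg {N : ℕ} {i a : Fin N} (h : o2E i a = -1) : a = Fin.rev i := by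
  apply o2E_one
  rw [o2E_rev, h]
  norm_num

theorem o2E_self {N : ℕ} {i : Fin N} (h : i ≠ Fin.rev i) : o2E i i = 1 := by
  unfold o2E
  rw [if_pos rfl, if_neg h]
  norm_num

theorem o2E_center {N : ℕ} {i : Fin N} (h : i = Fin.rev i) (a : Fin N) : o2E i a = 0 := by
  have h1 := o2E_rev i a
  rw [← h] at h1
  linarith

theorem o2_center {N : ℕ} {i j : Fin N} (hi : i = Fin.rev i) (hj : j = Fin.rev j) : i = j := by
  have h1 := congrArg Fin.val hi
  have h2 := congrArg Fin.val hj
  rw [Fin.val_rev] at h1 h2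
  apply Fin.ext
  have := i.2
  have := j.2
  omega

theorem o2E_inj {N : ℕ} {i j : Fin N} (h : ∀ a, o2E i a = o2E j a) : i = j := by
  by_cases hi : i = Fin.rev i
  · have hj : j = Fin.rev j := by
      by_contra hc
      have h1 := h j
      rw [o2E_self hc, o2E_center hi] at h1
      norm_num at h1
    exact o2_center hi hj
  · have h1 := h i
    rw [o2E_self hi] at h1
    exact o2E_one h1.symm

theorem o2E_ne {N : ℕ} {i a : Fin N} (h1 : a ≠ i) (h2 : a ≠ Fin.rev i) : o2E i a = 0 := by
  unfold o2E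
  rw [if_neg h1, if_neg h2]
  norm_num

theorem o2_comb {N : ℕ} {i j x y : Fin N} (hxy : x ≠ y) (hxy' : x ≠ Fin.rev y)
    (H : ∀ a, o2E i a - o2E j a - o2E x a + o2E y a = 0) :
    (i = x ∧ j = y) ∨ (i = Fin.rev y ∧ j = Fin.rev x) := by
  by_cases hx : x = Fin.rev x
  · have hEx := o2E_center hx
    have hy : y ≠ Fin.rev y := fun h => hxy (o2_center hx h)
    have h1 := H y
    rw [hEx, o2E_self hy] at h1
    have hb1 := o2E_bd i y
    have hb2 := o2E_bd j y
    have hc : o2E i y = -1 ∨ o2E j y = 1 := by omega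
    rcases hc with hc | hc
    · have hi := o2E_neg hc
      right
      have hi' : i = Fin.rev y := by rw [hi, Fin.rev_rev]
      refine ⟨hi', ?_⟩
      have h2 : ∀ a, o2E j a = o2E x a := by
        intro a
        have h3 := H a
        rw [hi', o2E_rev, hEx] at h3
        rw [hEx]
        linarith
      rw [o2E_inj h2, ← hx]
    · have hj := o2E_one hc
      left
      refine ⟨?_, hj.symm⟩
      apply o2E_inj
      intro a
      have h3 := H a
      rw [← hj] at h3
      linarith
  · have h1 := H x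
    rw [o2E_self hx, o2E_ne hxy hxy'] at h1
    have hb1 := o2E_bd i x
    have hb2 := o2E_bd j x
    have hc : o2E i x = 1 ∨ o2E j x = -1 := by omega
    rcases hc with hc | hc
    · have hi := o2E_one hc
      left
      refine ⟨hi.symm, ?_⟩
      apply o2E_inj
      intro a
      have h3 := H a
      rw [← hi] at h3
      linarith
    · have hj := o2E_neg hc
      have hj' : j = Fin.rev x := by rw [hj, Fin.rev_rev]
      right
      refine ⟨?_, hj'⟩
      apply o2E_inj
      intro a
      have h3 := H a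
      rw [hj', o2E_rev] at h3
      rw [o2E_rev]
      linarith

variable {k : Type*} [Field k] [Infinite k]

/-- the polynomial whose value at a generic point is the weight -/
noncomputable def o2D (k : Type*) [Field k] {N : ℕ} (i : Fin N) : k[X] :=
  X ^ (i : ℕ) - X ^ ((Fin.rev i : Fin N) : ℕ)

omit [Infinite k] in
theorem o2D_coeff {N : ℕ} (i a : Fin N) : (o2D k i).coeff (a : ℕ) = ((o2E i a : ℤ) : k) := by
  unfold o2D o2E
  rw [coeff_sub, coeff_X_pow, coeff_X_pow]
  push_cast
  simp only [Fin.val_inj]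

theorem o2_generic {p : ℕ} [Fact p.Prime] [CharP k p] (hp : 5 ≤ p) (N : ℕ) :
    ∃ t : Fin N → k, (∀ x, t (Fin.rev x) = - t x) ∧ Function.Injective t ∧
      ∀ x y, x ≠ y → x ≠ Fin.rev y → ∀ i j, t i - t j = t x - t y →
        (i = x ∧ j = y) ∨ (i = Fin.rev y ∧ j = Fin.rev x) := by
  classical
  set Q : Fin N × Fin N × Fin N × Fin N → k[X] := fun q =>
    o2D k q.1 - o2D k q.2.1 - o2D k q.2.2.1 + o2D k q.2.2.2 with hQ
  have hprod : (∏ q, if Q q = 0 then (1 : k[X]) else Q q) ≠ 0 := by
    rw [Finset.prod_ne_zero_iff]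
    intro q _
    split_ifs with h
    · exact one_ne_zero
    · exact h
  obtain ⟨z, hz⟩ : ∃ z : k, eval z (∏ q, if Q q = 0 then (1 : k[X]) else Q q) ≠ 0 := by
    by_contra hcon
    push Not at hcon
    exact hprod (Polynomial.funext fun r => by rw [hcon r, eval_zero])
  rw [eval_prod, Finset.prod_ne_zero_iff] at hz
  have key : ∀ i j x y : Fin N, eval z (o2D k i) - eval z (o2D k j) =
      eval z (o2D k x) - eval z (o2D k y) →
      ∀ a, o2E i a - o2E j a - o2E x a + o2E y a = 0 := by
    intro i j x y h a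
    have h1 := hz (i, j, x, y) (Finset.mem_univ _)
    have h0 : Q (i, j, x, y) = 0 := by
      by_contra hc
      rw [if_neg hc] at h1
      apply h1
      rw [hQ]
      simp only [eval_add, eval_sub]
      rw [h]
      ring
    have h2 : (Q (i, j, x, y)).coeff (a : ℕ) = 0 := by rw [h0, coeff_zero]
    rw [hQ] at h2
    simp only [coeff_add, coeff_sub, o2D_coeff] at h2
    have h3 : ((o2E i a - o2E j a - o2E x a + o2E y a : ℤ) : k) = 0 := by
      push_cast
      exact h2
    rw [CharP.intCast_eq_zero_iff k p] at h3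
    apply Int.eq_zero_of_abs_lt_dvd h3
    have b1 := o2E_bd i a
    have b2 := o2E_bd j a
    have b3 := o2E_bd x a
    have b4 := o2E_bd y a
    have hp' : (5 : ℤ) ≤ p := by exact_mod_cast hp
    rw [abs_lt]
    constructor <;> linarith
  refine ⟨fun i => eval z (o2D k i), fun x => ?_, fun i j hij => ?_, fun x y hxy hxy' i j h => ?_⟩
  · simp only [o2D, Fin.rev_rev, eval_sub]
    ring
  · have hij' : eval z (o2D k i) = eval z (o2D k j) := hij
    have h1 := key i j i i (by rw [hij', sub_self])
    apply o2E_inj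
    intro a
    have := h1 a
    linarith
  · exact o2_comb hxy hxy' (key i j x y h)

end generic

/-- Block O2: a generic element of the orthogonal Lie algebra and the root vectors. -/
theorem so_frame_pr {k : Type*} [Field k] [IsAlgClosed k] {p : ℕ} [Fact p.Prime] [CharP k p]
    (hp : 5 ≤ p) [Infinite k] {n : Type} [Fintype n] [DecidableEq n] (hn : 5 ≤ Fintype.card n)
    (B : Matrix n n k) (hB : Bᵀ = B) (hdet : IsUnit B.det) :
    ∃ (ι : Type) (_ : Fintype ι) (_ : DecidableEq ι) (s : ι → ι) (R : Matrix n ι k)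
      (R' : Matrix ι n k) (t : ι → k), R * R' = 1 ∧ R' * R = 1 ∧
      Fintype.card ι = Fintype.card n ∧ (∀ x, s (s x) = x) ∧ Function.Injective t ∧
      (∀ x y, x ≠ y → x ≠ s y → ∀ i j, t i - t j = t x - t y →
        (i = x ∧ j = y) ∨ (i = s y ∧ j = s x)) ∧
      ∀ W : Submodule k (Matrix n n k),
        (∀ a b : n → k, vecMulVec a (b ᵥ* B) - vecMulVec b (a ᵥ* B) ∈ W) →
          R * Matrix.diagonal t * R' ∈ W ∧
          ∀ x y, x ≠ y → x ≠ s y →
            R * (Matrix.single x y (1 : k) - Matrix.single (s y) (s x) (1 : k)) * R' ∈ W := by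
  have h2 : (2 : k) ≠ 0 := by
    intro h
    have h3 : ((2 : ℕ) : k) = 0 := by exact_mod_cast h
    rw [CharP.cast_eq_zero_iff k p] at h3
    have := Nat.le_of_dvd (by norm_num) h3
    omega
  obtain ⟨N, hN⟩ : ∃ N, Fintype.card n = N := ⟨_, rfl⟩
  obtain ⟨P, P', hP1, hP2, hP3⟩ := o2_cong h2 hN B hB hdet
  set J : Matrix (Fin N) (Fin N) k := fun x y => if x = Fin.rev y then 1 else 0 with hJ
  have hJt : Jᵀ = J := by
    ext x y
    rw [Matrix.transpose_apply, hJ]
    simp only [Fin.rev_eq_iff.symm.trans eq_comm]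
  have hJm : ∀ {m : Type} (M : Matrix (Fin N) m k) (x : Fin N) (y : m),
      (J * M) x y = M (Fin.rev x) y := by
    intro m M x y
    rw [Matrix.mul_apply, Finset.sum_eq_single (Fin.rev x)]
    · rw [hJ]
      simp only [Fin.rev_rev, if_true, one_mul]
    · intro b _ hb
      rw [hJ]
      have : x ≠ Fin.rev b := fun h => hb (by rw [h, Fin.rev_rev])
      simp only [if_neg this, zero_mul]
    · intro h
      exact absurd (Finset.mem_univ _) h
  have hJJ : J * J = 1 := by
    ext x y
    rw [hJm, hJ, Matrix.one_apply]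
    simp only [Fin.rev_inj]
  have hJdet : IsUnit J.det := Matrix.isUnit_det_of_left_inverse hJJ
  obtain ⟨Q, Q', hQ1, hQ2, hQ3⟩ := o2_cong h2 (Fintype.card_fin N) J hJt hJdet
  obtain ⟨t, ht1, ht2, ht3⟩ := o2_generic (k := k) hp N
  set R : Matrix n (Fin N) k := P * Q' with hR
  set R' : Matrix (Fin N) n k := Q * P' with hR'
  have hRR : R * R' = 1 := by
    calc P * Q' * (Q * P') = P * (Q' * Q) * P' := by simp only [Matrix.mul_assoc]
      _ = 1 := by rw [hQ2, Matrix.mul_one, hP1]
  have hRR' : R' * R = 1 := by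
    calc Q * P' * (P * Q') = Q * (P' * P) * Q' := by simp only [Matrix.mul_assoc]
      _ = 1 := by rw [hP2, Matrix.mul_one, hQ1]
  have hJ' : J = Q'ᵀ * Q' := by
    calc J = (Q * Q')ᵀ * J * (Q * Q') := by
          rw [hQ1, Matrix.transpose_one, Matrix.one_mul, Matrix.mul_one]
      _ = Q'ᵀ * (Qᵀ * J * Q) * Q' := by
          rw [Matrix.transpose_mul]
          simp only [Matrix.mul_assoc]
      _ = Q'ᵀ * Q' := by rw [hQ3, Matrix.mul_one]
  have hRBR : Rᵀ * B * R = J := by
    calc (P * Q')ᵀ * B * (P * Q') = Q'ᵀ * (Pᵀ * B * P) * Q' := by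
          rw [Matrix.transpose_mul]
          simp only [Matrix.mul_assoc]
      _ = J := by rw [hP3, Matrix.mul_one, hJ']
  have hRB : Rᵀ * B = J * R' := by
    calc Rᵀ * B = Rᵀ * B * (R * R') := by rw [hRR, Matrix.mul_one]
      _ = (Rᵀ * B * R) * R' := by simp only [Matrix.mul_assoc]
      _ = J * R' := by rw [hRBR]
  have hrow : ∀ x, (fun i => R i x) ᵥ* B = R' (Fin.rev x) := by
    intro x
    funext j
    have h3 : (Rᵀ * B) x j = R' (Fin.rev x) j := by rw [hRB, hJm]
    rw [← h3]
    rfl
  have hsing : ∀ x y, R * Matrix.single x y (1 : k) * R' = vecMulVec (fun i => R i x) (R' y) := by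
    intro x y
    ext i j
    rw [Matrix.mul_apply, Matrix.vecMulVec_apply, Finset.sum_eq_single y]
    · rw [Matrix.mul_single_apply_same, mul_one]
    · intro b _ hb
      rw [Matrix.mul_single_apply_of_ne _ _ _ _ _ hb, zero_mul]
    · intro h
      exact absurd (Finset.mem_univ _) h
  refine ⟨Fin N, inferInstance, inferInstance, Fin.rev, R, R', t, hRR, hRR', ?_,
    Fin.rev_rev, ht2, ht3, fun W hW => ?_⟩
  · rw [Fintype.card_fin, hN]
  have hmem : ∀ x y : Fin N, R * (Matrix.single x y (1 : k) -
      Matrix.single (Fin.rev y) (Fin.rev x) (1 : k)) * R' ∈ W := by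
    intro x y
    have h3 := hW (fun i => R i x) (fun i => R i (Fin.rev y))
    rw [hrow, hrow, Fin.rev_rev] at h3
    rw [Matrix.mul_sub, Matrix.sub_mul, hsing, hsing]
    exact h3
  refine ⟨?_, fun x y _ _ => hmem x y⟩
  have hsum : ∑ x : Fin N, t x • (R * (Matrix.single x x (1 : k) -
      Matrix.single (Fin.rev x) (Fin.rev x) (1 : k)) * R') ∈ W :=
    Submodule.sum_mem _ fun x _ => W.smul_mem _ (hmem x x)
  have hd : R * Matrix.diagonal t * R' = (2 : k)⁻¹ • ∑ x : Fin N, t x • (R * (Matrix.single x x (1 : k) -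
      Matrix.single (Fin.rev x) (Fin.rev x) (1 : k)) * R') := by
    rw [eq_inv_smul_iff₀ h2]
    ext i j
    rw [Matrix.smul_apply, Matrix.mul_apply, Matrix.sum_apply]
    have h3 : ∀ x : Fin N, (t x • (R * (Matrix.single x x (1 : k) -
        Matrix.single (Fin.rev x) (Fin.rev x) (1 : k)) * R')) i j =
        R i x * t x * R' x j + R i (Fin.rev x) * t (Fin.rev x) * R' (Fin.rev x) j := by
      intro x
      rw [Matrix.smul_apply, Matrix.mul_sub, Matrix.sub_mul, hsing, hsing, Matrix.sub_apply,
        Matrix.vecMulVec_apply, Matrix.vecMulVec_apply, ht1, smul_eq_mul]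
      ring
    simp only [h3]
    rw [Finset.sum_add_distrib]
    have h4 : ∑ x, R i (Fin.rev x) * t (Fin.rev x) * R' (Fin.rev x) j =
        ∑ x, R i x * t x * R' x j :=
      Equiv.sum_comp Fin.revPerm (fun x => R i x * t x * R' x j)
    rw [h4, ← two_mul, smul_eq_mul]
    simp only [Matrix.mul_diagonal]
  rw [hd]
  exact W.smul_mem _ hsum

end Pool.Agent.RO
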